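import Pool.Agent.W2helper94.CY.Defs

/-! Piece A1a of squad CY (helper94): normal forms for Bresinsky's semigroups. -/

set_option autoImplicit false

namespace Pool.Agent.W2helper69.CY

open Polynomial Finset Pool.Agent.W2helper94.CY

variable (p : Par)

lemma r0 : p.a1 * p.n1 = p.a13 * p.n3 + p.a14 * p.n4 := by
  simp only [Par.n1, Par.n3, Par.n4, Par.a1, Par.a2, Par.a3, Par.a4]; ring

lemma r1 : p.a2 * p.n2 = p.a21 * p.n1 + p.a24 * p.n4 := by
  simp only [Par.n1, Par.n2, Par.n4, Par.a1, Par.a2, Par.a3, Par.a4]; ring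

lemma r2 : p.a3 * p.n3 = p.a31 * p.n1 + p.a32 * p.n2 := by
  simp only [Par.n1, Par.n2, Par.n3, Par.a1, Par.a2, Par.a3, Par.a4]; ring

lemma r3 : p.a4 * p.n4 = p.a42 * p.n2 + p.a43 * p.n3 := by
  simp only [Par.n2, Par.n3, Par.n4, Par.a1, Par.a2, Par.a3, Par.a4]; ring

lemma r5 : p.a32 * p.n2 + p.a14 * p.n4 = p.a21 * p.n1 + p.a43 * p.n3 := by
  simp only [Par.n1, Par.n2, Par.n3, Par.n4, Par.a1, Par.a2, Par.a3, Par.a4]; ring

lemma n1_pos : 0 < p.n1 := by
  have := p.h32; have := p.h13; have := p.h24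
  unfold Par.n1; positivity

lemma n2_pos : 0 < p.n2 := by
  have := p.h31; have := p.h43; have := p.h24
  unfold Par.n2; positivity

lemma n3_pos : 0 < p.n3 := by
  have := p.h14; have := p.h42; have := p.h31
  unfold Par.n3; positivity

lemma n4_pos : 0 < p.n4 := by
  have := p.h42; have := p.h21; have := p.h13
  unfold Par.n4; positivity

lemma a2_pos : 0 < p.a2 := by have := p.h32; unfold Par.a2; omega
lemma a3_pos : 0 < p.a3 := by have := p.h13; unfold Par.a3; omega
lemma a4_pos : 0 < p.a4 := by have := p.h14; unfold Par.a4; omega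
lemma a1_pos : 0 < p.a1 := by have := p.h21; unfold Par.a1; omega

theorem nf_card (p : Par) : p.NF.card = p.n1 := by
  unfold Par.NF
  rw [card_union_of_disjoint]
  · simp only [card_product, card_range, Nat.card_Ico]
    unfold Par.n1 Par.a4
    rw [Nat.add_sub_cancel_left]
    ring
  · rw [Finset.disjoint_left]
    rintro ⟨a, b, d⟩ h1 h2
    simp only [mem_product, mem_range, mem_Ico] at h1 h2
    omega

theorem nf_mem (p : Par) (q : ℕ × ℕ × ℕ) (k : ℕ) : p.wt q + k * p.n1 ∈ p.S := by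
  unfold Par.wt Par.S
  have g1 : p.n1 ∈ AddSubmonoid.closure ({p.n1, p.n2, p.n3, p.n4} : Set ℕ) :=
    AddSubmonoid.subset_closure (by simp)
  have g2 : p.n2 ∈ AddSubmonoid.closure ({p.n1, p.n2, p.n3, p.n4} : Set ℕ) :=
    AddSubmonoid.subset_closure (by simp)
  have g3 : p.n3 ∈ AddSubmonoid.closure ({p.n1, p.n2, p.n3, p.n4} : Set ℕ) :=
    AddSubmonoid.subset_closure (by simp)
  have g4 : p.n4 ∈ AddSubmonoid.closure ({p.n1, p.n2, p.n3, p.n4} : Set ℕ) :=
    AddSubmonoid.subset_closure (by simp)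
  have e2 := nsmul_mem g2 q.1
  have e3 := nsmul_mem g3 q.2.1
  have e4 := nsmul_mem g4 q.2.2
  have e1 := nsmul_mem g1 k
  simp only [smul_eq_mul] at e1 e2 e3 e4
  exact add_mem (add_mem (add_mem e2 e3) e4) e1

/-- reduction of a representation to normal form -/
theorem red (p : Par) (γ k a b d : ℕ) (h : γ = a * p.n2 + b * p.n3 + d * p.n4 + k * p.n1) :
    ∃ q ∈ p.NF, ∃ k', γ = p.wt q + k' * p.n1 := by
  have n1p := n1_pos p
  have n2p := n2_pos p
  have n3p := n3_pos p
  have n4p := n4_pos p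
  have hk : k ≤ k * p.n1 := Nat.le_mul_of_pos_right k n1p
  by_cases c1 : p.a2 ≤ a
  · obtain ⟨a', rfl⟩ := Nat.exists_eq_add_of_le c1
    have hlt : k < γ := by
      have : 0 < (p.a2 + a') * p.n2 := Nat.mul_pos (by have := a2_pos p; omega) n2p
      omega
    have := p.h21
    exact red p γ (k + p.a21) a' b (d + p.a24) (by rw [h]; linear_combination r1 p)
  by_cases c2 : p.a3 ≤ b
  · obtain ⟨b', rfl⟩ := Nat.exists_eq_add_of_le c2
    have hlt : k < γ := by
      have : 0 < (p.a3 + b') * p.n3 := Nat.mul_pos (by have := a3_pos p; omega) n3p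
      omega
    have := p.h31
    exact red p γ (k + p.a31) (a + p.a32) b' d (by rw [h]; linear_combination r2 p)
  by_cases c3 : p.a4 ≤ d
  · obtain ⟨d', rfl⟩ := Nat.exists_eq_add_of_le c3
    have := a4_pos p
    exact red p γ k (a + p.a42) (b + p.a43) d' (by rw [h]; linear_combination r3 p)
  by_cases c4 : p.a14 ≤ d
  · obtain ⟨d', rfl⟩ := Nat.exists_eq_add_of_le c4
    have hlt : k < γ := by
      have : 0 < (p.a14 + d') * p.n4 := Nat.mul_pos (by have := p.h14; omega) n4p
      omega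
    by_cases c5 : p.a13 ≤ b
    · obtain ⟨b', rfl⟩ := Nat.exists_eq_add_of_le c5
      have := a1_pos p
      exact red p γ (k + p.a1) a b' d' (by rw [h]; linear_combination (r0 p).symm)
    by_cases c6 : p.a32 ≤ a
    · obtain ⟨a', rfl⟩ := Nat.exists_eq_add_of_le c6
      have := p.h21
      exact red p γ (k + p.a21) a' (b + p.a43) d' (by rw [h]; linear_combination r5 p)
    refine ⟨(a, b, p.a14 + d'), ?_, k, h⟩
    unfold Par.NF
    simp only [mem_union, mem_product, mem_range, mem_Ico]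
    right
    omega
  · refine ⟨(a, b, d), ?_, k, h⟩
    unfold Par.NF
    simp only [mem_union, mem_product, mem_range, mem_Ico]
    left
    omega
termination_by (γ - k, d)
decreasing_by all_goals (first | (apply Prod.Lex.left; omega) | (apply Prod.Lex.right; omega))

theorem nf_reduce (p : Par) (γ : ℕ) (h : γ ∈ p.S) : ∃ q ∈ p.NF, ∃ k, γ = p.wt q + k * p.n1 := by
  have key : ∃ k a b d : ℕ, γ = a * p.n2 + b * p.n3 + d * p.n4 + k * p.n1 := by
    unfold Par.S at h
    induction h using AddSubmonoid.closure_induction with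
    | mem x hx =>
      simp only [Set.mem_insert_iff, Set.mem_singleton_iff] at hx
      rcases hx with rfl | rfl | rfl | rfl
      · exact ⟨1, 0, 0, 0, by ring⟩
      · exact ⟨0, 1, 0, 0, by ring⟩
      · exact ⟨0, 0, 1, 0, by ring⟩
      · exact ⟨0, 0, 0, 1, by ring⟩
    | zero => exact ⟨0, 0, 0, 0, by ring⟩
    | add x y _ _ hx hy =>
      obtain ⟨k, a, b, d, hx⟩ := hx
      obtain ⟨k', a', b', d', hy⟩ := hy
      exact ⟨k + k', a + a', b + b', d + d', by rw [hx, hy]; ring⟩
  obtain ⟨k, a, b, d, h1⟩ := key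
  exact red p γ k a b d h1

end Pool.Agent.W2helper69.CY
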